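import Pool.Agent.H65.Flat.Geo

/-! # Elementary facts about `Geo` -/

namespace H45.Flat

open MeasureTheory Set Filter H65.Flat
open scoped ENNReal Topology

theorem rot_zero (v : T) : rot 0 v = v := by
  simp [rot]

theorem rot_rot (a b : ℝ) (v : T) : rot a (rot b v) = rot (a + b) v := by
  simp only [rot, Prod.mk.injEq, true_and]
  ring

theorem rot_inj {a : ℝ} {v w : T} (h : rot a v = rot a w) : v = w := by
  simp only [rot, Prod.mk.injEq, add_left_inj] at h
  exact Prod.ext h.1 (Prod.ext h.2.1 h.2.2)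

theorem continuous_rot (a : ℝ) : Continuous (rot a) := by
  unfold rot
  fun_prop

variable (G : Geo)

theorem psi_rot (u : T) (t y φ : ℝ) : Psi G.Φ u (t, y, φ) = rot φ (Psi G.Φ u (t, y, 0)) := by
  simp only [Psi, rot_rot]
  congr 1
  ring

theorem psi_zero (u : T) (t φ : ℝ) : Psi G.Φ u (t, 0, φ) = rot φ (G.Φ t u) := by
  simp only [Psi, G.flow_zero, rot_rot]
  congr 1
  ring

theorem psi_origin (u : T) : Psi G.Φ u (0, 0, 0) = u := by
  rw [psi_zero, G.flow_zero, rot_zero]

theorem K_psi (u : T) (t y φ : ℝ) : G.K (Psi G.Φ u (t, y, φ)) = G.Kc u t y := by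
  rw [psi_rot, G.K_rot]
  rfl

theorem Kc_eq (u : T) (t y : ℝ) : G.Kc u t y = G.K (G.Φ y (rot (Real.pi / 2) (G.Φ t u))) := by
  unfold Geo.Kc Psi
  rw [G.K_rot]

theorem Kc_zero (u : T) (t : ℝ) : G.Kc u t 0 = G.K (G.Φ t u) := by
  unfold Geo.Kc
  rw [psi_zero, rot_zero]

theorem psi_flow (u : T) (s t y φ : ℝ) :
    Psi G.Φ (G.Φ s u) (t, y, φ) = Psi G.Φ u (t + s, y, φ) := by
  simp only [Psi, ← G.flow_add]

theorem psi_deck {τ : Equiv.Perm T} (hτ : τ ∈ G.Λ) (u p : T) :
    Psi G.Φ (τ u) p = τ (Psi G.Φ u p) := by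
  simp only [Psi, G.Λ_flow τ hτ, G.Λ_rot τ hτ]

theorem psi_inj {u p q : T} (h : Psi G.Φ u p = Psi G.Φ u q) : p = q := by
  rw [← G.inv_left u p, h, G.inv_left]

theorem flow_cancel (s : ℝ) (v : T) : G.Φ s (G.Φ (-s) v) = v := by
  rw [← G.flow_add, add_neg_cancel, G.flow_zero]

theorem flow_inj {s : ℝ} {v w : T} (h : G.Φ s v = G.Φ s w) : v = w := by
  have h1 := congrArg (G.Φ (-s)) h
  rwa [← G.flow_add, ← G.flow_add, neg_add_cancel, G.flow_zero, G.flow_zero] at h1

theorem continuous_flow (t : ℝ) : Continuous (G.Φ t) :=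
  G.flow_cont.comp (continuous_const.prodMk continuous_id)

theorem continuous_orbit (v : T) : Continuous fun t => G.Φ t v :=
  G.flow_cont.comp (continuous_id.prodMk continuous_const)

theorem continuous_psi : Continuous fun q : T × T => Psi G.Φ q.1 q.2 := by
  have h1 : Continuous fun q : T × T => rot (Real.pi / 2) (G.Φ q.2.1 q.1) := by
    have h2 : Continuous fun q : T × T => G.Φ q.2.1 q.1 :=
      G.flow_cont.comp ((continuous_fst.comp continuous_snd).prodMk continuous_fst)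
    exact (continuous_rot _).comp h2
  have h3 : Continuous fun q : T × T => G.Φ q.2.2.1 (rot (Real.pi / 2) (G.Φ q.2.1 q.1)) :=
    G.flow_cont.comp ((continuous_fst.comp (continuous_snd.comp continuous_snd)).prodMk h1)
  unfold Psi rot
  unfold rot at h3
  fun_prop

/-- the orbit of `u` in the chart of `u` -/
theorem inv_orbit (u : T) (t : ℝ) : G.inv u (G.Φ t u) = (t, 0, 0) := by
  have h := psi_zero G u t 0
  rw [rot_zero] at h
  rw [← h, G.inv_left]

/-- flat vectors are invariant -/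
theorem flat_flow {u : T} (hu : G.FlatV u) (s : ℝ) : G.FlatV (G.Φ s u) := by
  intro t
  rw [← G.flow_add]
  exact hu _

theorem flat_deck {u : T} (hu : G.FlatV u) {τ : Equiv.Perm T} (hτ : τ ∈ G.Λ) :
    G.FlatV (τ u) := by
  intro t
  rw [G.Λ_flow τ hτ, G.Λ_K τ hτ]
  exact hu _

theorem isClosed_flat : IsClosed {v : T | G.FlatV v} := by
  have h : {v : T | G.FlatV v} = ⋂ t : ℝ, {v : T | G.K (G.Φ t v) = 0} := by
    ext v
    simp [Geo.FlatV]
  rw [h]
  exact isClosed_iInter fun t =>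
    isClosed_eq (G.K_cont.comp (continuous_flow G t)) continuous_const

/-- the Jacobi field is trivial on a flat segment -/
theorem J_of_flat {v : T} {b : ℝ} (h : ∀ y ∈ uIcc 0 b, G.K (G.Φ y v) = 0) :
    ∀ y ∈ uIcc 0 b, G.J v y = 1 ∧ G.J1 v y = 0 := by
  have h1 : ∀ y ∈ uIcc 0 b, G.J1 v y = 0 := by
    intro y hy
    have hsub : uIcc 0 y ⊆ uIcc 0 b := uIcc_subset_uIcc_left hy
    by_contra hne
    rcases lt_trichotomy y 0 with hy0 | hy0 | hy0
    · have hd : ∀ z ∈ Ico y 0, HasDerivWithinAt (G.J1 v) 0 (Ici z) z := by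
        intro z hz
        have := G.J1_deriv v z
        rw [h z (hsub (by rw [uIcc_of_ge hy0.le]; exact ⟨hz.1, hz.2.le⟩))] at this
        simpa using this.hasDerivWithinAt
      have hc : ContinuousOn (G.J1 v) (Icc y 0) := fun z _ =>
        (G.J1_deriv v z).continuousAt.continuousWithinAt
      have := constant_of_has_deriv_right_zero hc hd 0 ⟨hy0.le, le_rfl⟩
      rw [G.J1_zero] at this
      exact hne this.symm
    · subst hy0
      exact hne (G.J1_zero v)
    · have hd : ∀ z ∈ Ico 0 y, HasDerivWithinAt (G.J1 v) 0 (Ici z) z := by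
        intro z hz
        have := G.J1_deriv v z
        rw [h z (hsub (by rw [uIcc_of_le hy0.le]; exact ⟨hz.1, hz.2.le⟩))] at this
        simpa using this.hasDerivWithinAt
      have hc : ContinuousOn (G.J1 v) (Icc 0 y) := fun z _ =>
        (G.J1_deriv v z).continuousAt.continuousWithinAt
      have := constant_of_has_deriv_right_zero hc hd y ⟨hy0.le, le_rfl⟩
      rw [G.J1_zero] at this
      exact hne this
  intro y hy
  refine ⟨?_, h1 y hy⟩
  have hsub : uIcc 0 y ⊆ uIcc 0 b := uIcc_subset_uIcc_left hy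
  rcases le_total y 0 with hy0 | hy0
  · have hd : ∀ z ∈ Ico y 0, HasDerivWithinAt (G.J v) 0 (Ici z) z := by
      intro z hz
      have := G.J_deriv v z
      rw [h1 z (hsub (by rw [uIcc_of_ge hy0]; exact ⟨hz.1, hz.2.le⟩))] at this
      exact this.hasDerivWithinAt
    have hc : ContinuousOn (G.J v) (Icc y 0) := fun z _ =>
      (G.J_deriv v z).continuousAt.continuousWithinAt
    have := constant_of_has_deriv_right_zero hc hd 0 ⟨hy0, le_rfl⟩
    rw [G.J_zero] at this
    exact this.symm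
  · have hd : ∀ z ∈ Ico 0 y, HasDerivWithinAt (G.J v) 0 (Ici z) z := by
      intro z hz
      have := G.J_deriv v z
      rw [h1 z (hsub (by rw [uIcc_of_le hy0]; exact ⟨hz.1, hz.2.le⟩))] at this
      exact this.hasDerivWithinAt
    have hc : ContinuousOn (G.J v) (Icc 0 y) := fun z _ =>
      (G.J_deriv v z).continuousAt.continuousWithinAt
    have := constant_of_has_deriv_right_zero hc hd y ⟨hy0, le_rfl⟩
    rw [G.J_zero] at this
    exact this

/-- in a flat strip the curves at constant height are geodesics -/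
theorem flow_strip {u : T} {b : ℝ} (h : G.Strip u b) (t s : ℝ) :
    G.Φ s (Psi G.Φ u (t, b, 0)) = Psi G.Φ u (t + s, b, 0) := by
  have hJ : ∀ t, G.J (rot (Real.pi / 2) (G.Φ t u)) b = 1 ∧
      G.J1 (rot (Real.pi / 2) (G.Φ t u)) b = 0 := by
    intro t
    refine J_of_flat G (b := b) (fun y hy => ?_) b right_mem_uIcc
    rw [← Kc_eq]
    exact h t y hy
  have hsol : ChartSol (fun t y => G.J (rot (Real.pi / 2) (G.Φ t u)) y)
      (fun t y => G.J1 (rot (Real.pi / 2) (G.Φ t u)) y) (fun s => t + s) (fun _ => b)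
      (fun _ => 0) := by
    intro r
    refine ⟨?_, ?_, ?_⟩
    · have h1 : HasDerivAt (fun s : ℝ => t + s) 1 r := by
        simpa using (hasDerivAt_id r).const_add t
      simpa [(hJ (t + r)).1] using h1
    · simpa using hasDerivAt_const r b
    · simpa [(hJ (t + r)).2] using hasDerivAt_const r (0 : ℝ)
  have := G.chart_unique u _ _ _ hsol s
  simpa using this

/-- lines parallel to a periodic line in a flat strip are periodic -/
theorem per_of_strip {u : T} (hu : G.Per u) {b : ℝ} (h : G.Strip u b) (t : ℝ) :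
    G.Per (Psi G.Φ u (t, b, 0)) := by
  obtain ⟨τ, hτ, s, hs, hu⟩ := hu
  refine ⟨τ, hτ, s, hs, ?_⟩
  rw [← psi_deck G hτ, hu, psi_flow, flow_strip G h]

theorem per_conj {u : T} {τ : Equiv.Perm T} (hτ : τ ∈ G.Λ) {s : ℝ} (h : G.Per (τ (G.Φ s u))) :
    G.Per u := by
  obtain ⟨τ', hτ', r, hr, h⟩ := h
  refine ⟨τ⁻¹ * τ' * τ, G.Λ.mul_mem (G.Λ.mul_mem (G.Λ.inv_mem hτ) hτ') hτ, r, hr, ?_⟩
  have h1 : τ' (τ (G.Φ s u)) = τ (G.Φ r (G.Φ s u)) := by
    rw [h, G.Λ_flow τ hτ]
  have h2 : G.Φ s (τ' (τ u)) = G.Φ s (τ (G.Φ r u)) := by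
    rw [G.Λ_flow τ' hτ', G.Λ_flow τ hτ, h1, G.Λ_flow τ hτ, ← G.flow_add, ← G.flow_add,
      add_comm]
  have h3 := flow_inj G h2
  change τ.symm (τ' (τ u)) = _
  rw [h3, Equiv.symm_apply_apply]

end H45.Flat
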