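import Pool.Agent.H45.Flat.Basic

/-! # Flat geodesics which are limits of flat geodesics are flat to infinite order -/

namespace H45.Flat

open MeasureTheory Set Filter H65.Flat
open scoped ENNReal Topology

/-! ## One variable calculus -/

theorem rolle_step {g : ℝ → ℝ} (hg : ContDiff ℝ (⊤ : ℕ∞) g) (h0 : g 0 = 0)
    (hf : ∃ᶠ y in 𝓝[≠] (0 : ℝ), g y = 0) :
    deriv g 0 = 0 ∧ ∃ᶠ y in 𝓝[≠] (0 : ℝ), deriv g y = 0 := by
  have hd : Differentiable ℝ g := hg.differentiable (by simp)
  have hdc : Continuous (deriv g) := hg.continuous_deriv (by simp)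
  have h1 : ∃ᶠ y in 𝓝[≠] (0 : ℝ), deriv g y = 0 := by
    rw [(Metric.nhdsWithin_basis_ball (x := (0 : ℝ)) (s := {0}ᶜ)).frequently_iff] at hf ⊢
    intro ε hε
    obtain ⟨y, ⟨hy1, hy2⟩, hy⟩ := hf ε hε
    rw [Metric.mem_ball, Real.dist_eq, sub_zero] at hy1
    have hy2' : y ≠ 0 := hy2
    rcases lt_or_gt_of_ne hy2' with hneg | hpos
    · obtain ⟨c, hc, hc0⟩ := exists_deriv_eq_zero hneg hd.continuous.continuousOn (by rw [hy, h0])
      refine ⟨c, ⟨?_, ?_⟩, hc0⟩
      · rw [Metric.mem_ball, Real.dist_eq, sub_zero, abs_of_neg hc.2]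
        rw [abs_of_neg hneg] at hy1
        linarith [hc.1]
      · exact hc.2.ne
    · obtain ⟨c, hc, hc0⟩ := exists_deriv_eq_zero hpos hd.continuous.continuousOn (by rw [hy, h0])
      refine ⟨c, ⟨?_, ?_⟩, hc0⟩
      · rw [Metric.mem_ball, Real.dist_eq, sub_zero, abs_of_pos hc.1]
        rw [abs_of_pos hpos] at hy1
        linarith [hc.2]
      · exact hc.1.ne'
  refine ⟨?_, h1⟩
  by_contra hne
  have h2 : ∀ᶠ y in 𝓝[≠] (0 : ℝ), deriv g y ≠ 0 :=
    (hdc.continuousAt.eventually_ne hne).filter_mono nhdsWithin_le_nhds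
  exact h1 h2

theorem iteratedDeriv_zero_of_frequently {f : ℝ → ℝ} (hf : ContDiff ℝ (⊤ : ℕ∞) f) (h0 : f 0 = 0)
    (hfr : ∃ᶠ y in 𝓝[≠] (0 : ℝ), f y = 0) (m : ℕ) : iteratedDeriv m f 0 = 0 := by
  have key : ∀ m : ℕ, ∀ g : ℝ → ℝ, ContDiff ℝ (⊤ : ℕ∞) g → g 0 = 0 →
      (∃ᶠ y in 𝓝[≠] (0 : ℝ), g y = 0) → iteratedDeriv m g 0 = 0 := by
    intro m
    induction m with
    | zero =>
      intro g _ h0 _
      rw [iteratedDeriv_zero]
      exact h0
    | succ m ih =>
      intro g hg h0 hfr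
      obtain ⟨h1, h2⟩ := rolle_step hg h0 hfr
      rw [iteratedDeriv_succ']
      refine ih (deriv g) ?_ h1 h2
      have := (contDiff_infty_iff_deriv (𝕜 := ℝ) (f := g)).1 hg
      exact this.2
  exact key m f hf h0 hfr

theorem taylor_bound {Q : ℕ} : ∀ {f : ℝ → ℝ} {C : ℝ}, ContDiff ℝ (⊤ : ℕ∞) f →
    (∀ m < Q, iteratedDeriv m f 0 = 0) → (∀ y, |iteratedDeriv Q f y| ≤ C) →
    ∀ y, |f y| ≤ C * |y| ^ Q := by
  induction Q with
  | zero =>
    intro f C _ _ hC y
    simpa using hC y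
  | succ Q ih =>
    intro f C hf h0 hC y
    have hd : Differentiable ℝ f := hf.differentiable (by simp)
    have hf' : ContDiff ℝ (⊤ : ℕ∞) (deriv f) := ((contDiff_infty_iff_deriv (𝕜 := ℝ)).1 hf).2
    have h1 := ih (f := deriv f) (C := C) hf' (fun m hm => by
      have := h0 (m + 1) (by omega)
      rwa [iteratedDeriv_succ'] at this) (fun y => by
      have := hC y
      rwa [iteratedDeriv_succ'] at this)
    have hC0 : 0 ≤ C := (abs_nonneg _).trans (hC 0)
    have h2 : ∀ z ∈ uIcc 0 y, ‖deriv f z‖ ≤ C * |y| ^ Q := by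
      intro z hz
      rw [Real.norm_eq_abs]
      refine (h1 z).trans ?_
      have hz' : |z| ≤ |y| := by
        have := abs_sub_left_of_mem_uIcc hz
        simpa using this
      gcongr
    have h3 := (convex_uIcc (0 : ℝ) y).norm_image_sub_le_of_norm_deriv_le (f := f)
      (fun z _ => hd z) h2 left_mem_uIcc right_mem_uIcc
    have hf0 : f 0 = 0 := by
      have := h0 0 (by omega)
      rwa [iteratedDeriv_zero] at this
    rw [hf0, sub_zero, sub_zero, Real.norm_eq_abs, Real.norm_eq_abs] at h3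
    calc |f y| ≤ C * |y| ^ Q * |y| := h3
      _ = C * |y| ^ (Q + 1) := by ring

/-! ## Jacobi fields in nonpositive curvature -/

variable (G : Geo)

theorem J_facts (v : T) : (∀ y, 1 ≤ G.J v y) ∧ ∀ y, 0 ≤ y * G.J1 v y := by
  have hd : ∀ y, HasDerivAt (fun y => G.J v y * G.J1 v y)
      (G.J1 v y * G.J1 v y + G.J v y * (-G.K (G.Φ y v) * G.J v y)) y := fun y =>
    (G.J_deriv v y).mul (G.J1_deriv v y)
  have hmono : Monotone (fun y => G.J v y * G.J1 v y) := by
    refine monotone_of_deriv_nonneg (fun y => (hd y).differentiableAt) fun y => ?_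
    rw [(hd y).deriv]
    have h1 := G.K_nonpos (G.Φ y v)
    nlinarith [mul_self_nonneg (G.J1 v y), mul_self_nonneg (G.J v y),
      mul_nonneg (neg_nonneg.2 h1) (mul_self_nonneg (G.J v y))]
  have hz : (fun y => G.J v y * G.J1 v y) 0 = 0 := by
    simp [G.J1_zero]
  have hd2 : ∀ y, HasDerivAt (fun y => G.J v y ^ 2) (2 * (G.J v y * G.J1 v y)) y := by
    intro y
    have := (G.J_deriv v y).pow 2
    refine this.congr_deriv ?_
    push_cast
    ring
  have hsq : ∀ y, 1 ≤ G.J v y ^ 2 := by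
    intro y
    have h0 : G.J v 0 ^ 2 = 1 := by rw [G.J_zero]; norm_num
    rcases le_total 0 y with hy | hy
    · have : MonotoneOn (fun y => G.J v y ^ 2) (Icc 0 y) := by
        refine monotoneOn_of_deriv_nonneg (convex_Icc 0 y)
          (fun z _ => (hd2 z).continuousAt.continuousWithinAt)
          (fun z _ => (hd2 z).differentiableAt.differentiableWithinAt) fun z hz' => ?_
        rw [interior_Icc] at hz'
        rw [(hd2 z).deriv]
        have := hmono hz'.1.le
        rw [hz] at this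
        have h2 : 0 ≤ G.J v z * G.J1 v z := this
        linarith
      have := this ⟨le_rfl, hy⟩ ⟨hy, le_rfl⟩ hy
      simpa [h0] using this
    · have : AntitoneOn (fun y => G.J v y ^ 2) (Icc y 0) := by
        refine antitoneOn_of_deriv_nonpos (convex_Icc y 0)
          (fun z _ => (hd2 z).continuousAt.continuousWithinAt)
          (fun z _ => (hd2 z).differentiableAt.differentiableWithinAt) fun z hz' => ?_
        rw [interior_Icc] at hz'
        rw [(hd2 z).deriv]
        have := hmono hz'.2.le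
        rw [hz] at this
        have h2 : G.J v z * G.J1 v z ≤ 0 := this
        linarith
      have := this ⟨le_rfl, hy⟩ ⟨hy, le_rfl⟩ hy
      simpa [h0] using this
  have hcont : Continuous (G.J v) :=
    continuous_iff_continuousAt.2 fun y => (G.J_deriv v y).continuousAt
  have hone : ∀ y, 1 ≤ G.J v y := by
    intro y
    by_contra hlt
    push Not at hlt
    have hneg : G.J v y ≤ 0 := by nlinarith [hsq y]
    obtain ⟨z, hz'⟩ := mem_range_of_exists_le_of_exists_ge hcont ⟨y, hneg⟩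
      ⟨0, by rw [G.J_zero]; norm_num⟩
    have := hsq z
    rw [hz'] at this
    norm_num at this
  refine ⟨hone, fun y => ?_⟩
  rcases le_total 0 y with hy | hy
  · have h1 := hmono hy
    rw [hz] at h1
    have h2 : 0 ≤ G.J v y * G.J1 v y := h1
    have h3 : 0 ≤ G.J1 v y := nonneg_of_mul_nonneg_right h2 (by linarith [hone y])
    exact mul_nonneg hy h3
  · have h1 := hmono hy
    rw [hz] at h1
    have h2 : G.J v y * G.J1 v y ≤ 0 := h1
    have h3 : G.J1 v y ≤ 0 := by
      by_contra hpos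
      push Not at hpos
      nlinarith [hone y, mul_pos (show 0 < G.J v y by linarith [hone y]) hpos]
    exact mul_nonneg_of_nonpos_of_nonpos hy h3

/-- the function `y sin φ` is nondecreasing along geodesics -/
theorem crossing {u : T} {t y φ : ℝ → ℝ} (h : ChartSol (G.Gc u) (G.Gc1 u) t y φ) {s0 s1 : ℝ}
    (hs : s0 < s1) (h0 : y s0 = 0) (h1 : y s1 = 0) : Real.sin (φ s0) = 0 := by
  have hd : ∀ s, HasDerivAt (fun s => y s * Real.sin (φ s))
      (Real.sin (φ s) * Real.sin (φ s) + y s * (Real.cos (φ s) *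
        (G.Gc1 u (t s) (y s) / G.Gc u (t s) (y s) * Real.cos (φ s)))) s := fun s =>
    (h s).2.1.mul (h s).2.2.sin
  have hnn : ∀ s, 0 ≤ y s * (Real.cos (φ s) *
        (G.Gc1 u (t s) (y s) / G.Gc u (t s) (y s) * Real.cos (φ s))) := by
    intro s
    have hj := J_facts G (rot (Real.pi / 2) (G.Φ (t s) u))
    have h2 : 0 ≤ y s * G.Gc1 u (t s) (y s) := hj.2 (y s)
    have h3 : 1 ≤ G.Gc u (t s) (y s) := hj.1 (y s)
    have h4 : y s * (Real.cos (φ s) *
        (G.Gc1 u (t s) (y s) / G.Gc u (t s) (y s) * Real.cos (φ s)))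
        = y s * G.Gc1 u (t s) (y s) / G.Gc u (t s) (y s) * (Real.cos (φ s) * Real.cos (φ s)) := by
      ring
    rw [h4]
    exact mul_nonneg (div_nonneg h2 (by linarith)) (mul_self_nonneg _)
  have hmono : Monotone (fun s => y s * Real.sin (φ s)) := by
    refine monotone_of_deriv_nonneg (fun s => (hd s).differentiableAt) fun s => ?_
    rw [(hd s).deriv]
    exact add_nonneg (mul_self_nonneg _) (hnn s)
  have hzero : ∀ s ∈ Icc s0 s1, y s * Real.sin (φ s) = 0 := by
    intro s hs'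
    have a1 := hmono hs'.1
    have a2 := hmono hs'.2
    simp only [h0, h1, zero_mul] at a1 a2
    exact le_antisymm a2 a1
  have hderiv : ∀ s ∈ Ioo s0 s1, Real.sin (φ s) = 0 := by
    intro s hs'
    have h2 : HasDerivAt (fun s => y s * Real.sin (φ s)) 0 s := by
      have h3 : (fun s => y s * Real.sin (φ s)) =ᶠ[𝓝 s] fun _ => (0 : ℝ) := by
        filter_upwards [isOpen_Ioo.mem_nhds hs'] with r hr
        exact hzero r ⟨hr.1.le, hr.2.le⟩
      exact (hasDerivAt_const s (0 : ℝ)).congr_of_eventuallyEq h3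
    have h4 := (hd s).unique h2
    have h5 : Real.sin (φ s) * Real.sin (φ s) = 0 :=
      le_antisymm (by linarith [hnn s]) (mul_self_nonneg _)
    exact mul_self_eq_zero.1 h5
  have hc : Continuous fun s => Real.sin (φ s) :=
    Real.continuous_sin.comp (continuous_iff_continuousAt.2 fun s => (h s).2.2.continuousAt)
  have hcl : IsClosed {s | Real.sin (φ s) = 0} := isClosed_eq hc continuous_const
  have hsub : closure (Ioo s0 s1) ⊆ {s | Real.sin (φ s) = 0} :=
    closure_minimal (fun s hs' => hderiv s hs') hcl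
  rw [closure_Ioo hs.ne] at hsub
  exact hsub ⟨le_rfl, hs.le⟩

/-! ## Step 4 -/

theorem Kc_smooth (u : T) (t : ℝ) : ContDiff ℝ (⊤ : ℕ∞) (G.Kc u t) := by
  have h := G.K_smooth (rot (Real.pi / 2) (G.Φ t u))
  have h2 : G.Kc u t = fun y => G.K (G.Φ y (rot (Real.pi / 2) (G.Φ t u))) :=
    funext fun y => Kc_eq G u t y
  rwa [h2]

theorem Kc_cont_left (u : T) (y : ℝ) : Continuous fun t => G.Kc u t y := by
  have h : Continuous fun t : ℝ => Psi G.Φ u (t, y, 0) :=
    (continuous_psi G).comp (continuous_const.prodMk (by fun_prop))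
  exact G.K_cont.comp h

/-- the coordinates of nearby lines are uniformly close to those of `u` on compact intervals -/
theorem tracking (u : T) (a b ε : ℝ) (hε : 0 < ε) :
    ∀ᶠ v in 𝓝 u, ∀ s ∈ Icc a b, dist (G.inv u (G.Φ s v)) (s, 0, 0) < ε := by
  have hF : Continuous fun q : T × ℝ => dist (G.inv u (G.Φ q.2 q.1)) ((q.2, 0, 0) : T) := by
    have h1 : Continuous fun q : T × ℝ => G.Φ q.2 q.1 :=
      G.flow_cont.comp (continuous_snd.prodMk continuous_fst)
    have h2 : Continuous fun q : T × ℝ => G.inv u (G.Φ q.2 q.1) :=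
      G.inv_cont.comp (continuous_const.prodMk h1)
    exact h2.dist (by fun_prop)
  refine isCompact_Icc.eventually_forall_of_forall_eventually (fun s _ => ?_)
  have h3 : dist (G.inv u (G.Φ s u)) ((s, 0, 0) : T) < ε := by
    rw [inv_orbit, dist_self]
    exact hε
  exact hF.continuousAt.eventually_lt continuousAt_const h3

theorem infFlat_of_limit {u : T} (hu : G.FlatV u) {v : ℕ → T} (hv : ∀ i, G.FlatV (v i))
    (hlim : Tendsto v atTop (𝓝 u)) (hne : ∀ i s, v i ≠ G.Φ s u) : G.InfFlat u := by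
  have hK0 : ∀ t, G.Kc u t 0 = 0 := fun t => by rw [Kc_zero]; exact hu t
  -- two different times at which `K` has isolated zero are impossible
  have key : ∀ t0 t1 : ℝ, t0 < t1 → (¬ ∃ᶠ y in 𝓝[≠] (0 : ℝ), G.Kc u t0 y = 0) →
      (¬ ∃ᶠ y in 𝓝[≠] (0 : ℝ), G.Kc u t1 y = 0) → False := by
    intro t0 t1 ht h0 h1
    rw [not_frequently, (Metric.nhdsWithin_basis_ball (x := (0 : ℝ)) (s := {0}ᶜ)).eventually_iff]
      at h0 h1
    obtain ⟨ε0, hε0, h0⟩ := h0
    obtain ⟨ε1, hε1, h1⟩ := h1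
    set ε := min (min ε0 ε1) (1 / 2) with hε
    have hεp : 0 < ε := by positivity
    have hε0' : ε ≤ ε0 := (min_le_left _ _).trans (min_le_left _ _)
    have hε1' : ε ≤ ε1 := (min_le_left _ _).trans (min_le_right _ _)
    have hε2' : ε ≤ 1 / 2 := min_le_right _ _
    obtain ⟨i, hi⟩ := (hlim.eventually (tracking G u (t0 - 1) (t1 + 1) ε hεp)).exists
    obtain ⟨t, y, φ, -, -, -, hsol, hflow⟩ := G.chart_sol u (G.inv u (v i))
    rw [G.inv_right] at hflow
    have hco : ∀ s, G.inv u (G.Φ s (v i)) = (t s, y s, φ s) := by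
      intro s
      rw [hflow s, G.inv_left]
    have hclose : ∀ s ∈ Icc (t0 - 1) (t1 + 1), |t s - s| < ε ∧ |y s| < ε ∧ |φ s| < ε := by
      intro s hs
      have := hi s hs
      rw [hco, Prod.dist_eq, Prod.dist_eq, max_lt_iff, max_lt_iff] at this
      simpa [Real.dist_eq] using this
    have htc : Continuous t := by
      refine continuous_iff_continuousAt.2 fun s => (hsol s).1.continuousAt
    have hfind : ∀ r ∈ Icc t0 t1, ∃ s ∈ Icc (t0 - 1) (t1 + 1), t s = r := by
      intro r hr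
      have a1 := hclose (r - 1) ⟨by linarith [hr.1], by linarith [hr.2]⟩
      have a2 := hclose (r + 1) ⟨by linarith [hr.1], by linarith [hr.2]⟩
      have a3 := (abs_lt.1 a1.1).2
      have a4 := (abs_lt.1 a2.1).1
      have : r ∈ Icc (t (r - 1)) (t (r + 1)) := ⟨by linarith, by linarith⟩
      obtain ⟨s, hs, hs'⟩ := intermediate_value_Icc (by linarith : r - 1 ≤ r + 1)
        htc.continuousOn this
      exact ⟨s, ⟨by linarith [hs.1, hr.1], by linarith [hs.2, hr.2]⟩, hs'⟩
    obtain ⟨s0, hs0, hts0⟩ := hfind t0 ⟨le_rfl, ht.le⟩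
    obtain ⟨s1, hs1, hts1⟩ := hfind t1 ⟨ht.le, le_rfl⟩
    have hKz : ∀ s, G.Kc u (t s) (y s) = 0 := by
      intro s
      have := hv i s
      rwa [hflow s, K_psi] at this
    have hy0 : y s0 = 0 := by
      by_contra hne0
      refine h0 ⟨?_, hne0⟩ ?_
      · rw [Metric.mem_ball, Real.dist_eq, sub_zero]
        exact (hclose s0 hs0).2.1.trans_le hε0'
      · rw [← hts0]; exact hKz s0
    have hy1 : y s1 = 0 := by
      by_contra hne0
      refine h1 ⟨?_, hne0⟩ ?_
      · rw [Metric.mem_ball, Real.dist_eq, sub_zero]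
        exact (hclose s1 hs1).2.1.trans_le hε1'
      · rw [← hts1]; exact hKz s1
    have hsin : ∃ s ∈ Icc (t0 - 1) (t1 + 1), y s = 0 ∧ Real.sin (φ s) = 0 := by
      rcases lt_trichotomy s0 s1 with h | h | h
      · exact ⟨s0, hs0, hy0, crossing G hsol h hy0 hy1⟩
      · rw [h, hts1] at hts0
        exact absurd hts0 ht.ne'
      · exact ⟨s1, hs1, hy1, crossing G hsol h hy1 hy0⟩
    obtain ⟨s, hs, hys, hsin⟩ := hsin
    have hφ : φ s = 0 := by
      have h3 := (hclose s hs).2.2
      have h4 := abs_lt.1 h3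
      refine (Real.sin_eq_zero_iff_of_lt_of_lt ?_ ?_).1 hsin
      · have := Real.pi_gt_three; linarith
      · have := Real.pi_gt_three; linarith
    have hfin : G.Φ s (v i) = G.Φ (t s) u := by
      rw [hflow s, hys, hφ, psi_zero, rot_zero]
    refine hne i (-s + t s) ?_
    rw [G.flow_add, ← hfin, ← G.flow_add, neg_add_cancel, G.flow_zero]
  intro Q
  obtain ⟨C, hC⟩ := G.K_bdd Q
  refine ⟨C, ?_⟩
  have hgood : ∀ t, (∃ᶠ y in 𝓝[≠] (0 : ℝ), G.Kc u t y = 0) → ∀ y, |G.Kc u t y| ≤ C * |y| ^ Q := by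
    intro t ht
    refine taylor_bound (Kc_smooth G u t)
      (fun m _ => iteratedDeriv_zero_of_frequently (Kc_smooth G u t) (hK0 t) ht m) fun y => ?_
    have := hC (rot (Real.pi / 2) (G.Φ t u)) y
    have h2 : G.Kc u t = fun y => G.K (G.Φ y (rot (Real.pi / 2) (G.Φ t u))) :=
      funext fun y => Kc_eq G u t y
    rwa [h2]
  intro t y _
  by_cases ht : ∃ᶠ y in 𝓝[≠] (0 : ℝ), G.Kc u t y = 0
  · exact hgood t ht y
  · -- all larger times are good
    have hlarge : ∀ r > t, |G.Kc u r y| ≤ C * |y| ^ Q := fun r hr =>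
      hgood r (by_contra fun hnot => key t r hr ht hnot) y
    have hcl : IsClosed {r | |G.Kc u r y| ≤ C * |y| ^ Q} :=
      isClosed_le (Kc_cont_left G u y).abs continuous_const
    have hsub : closure (Ioi t) ⊆ {r | |G.Kc u r y| ≤ C * |y| ^ Q} :=
      closure_minimal (fun r hr => hlarge r hr) hcl
    rw [closure_Ioi] at hsub
    exact hsub (mem_Ici.2 le_rfl)

end H45.Flat
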